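import Pool.Agent.H24FG.Final

/-!
# The standard conjecture of Hodge type is determined on the products of few factors

Let `P_a`, `a ∈ Λ`, be a finite family of smooth projective varieties over a field `k` (of any
characteristic), with divisors satisfying the hard Lefschetz theorem and the standard conjecture of
Lefschetz type, and let `N ≥ 3`. All products `P_(c 0) × ... × P_(c n)` (any number of factors, any
repetitions) are polarized by the sums of the pull-backs of the divisors.

A class on such a product is called *generated in degree `N`* (`Gen`) if it is obtained from the
algebraic classes on the products of at most `N` members by rational linear combinations, cup
products, pull-backs along the morphisms `(x_0, …, x_m) ↦ (x_(f 0), …, x_(f n))` for arbitrary maps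
`f` of the indices (projections, permutations, diagonals) and push-forwards along projections. Since
the graphs of the morphisms between small products are algebraic classes on small products, the
operations also include the pull-backs and push-forwards along these morphisms (for instance, for
abelian varieties, along all homomorphisms between the powers, for `N = 3`).

**Theorem.** Suppose that the standard conjecture of Hodge type holds, in the semidefinite form, for
the products of at most `N` members. Then on **all** products, with any number of factors, the
standard conjecture of Hodge type holds modulo numerical equivalence for the classes generated in
degree `N`: for `2 j ≤ d = dim` and every cycle `z` of codimension `j` which is primitive and whose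
class is generated in degree `N` one has `(-1)^j (z · z · D^(d - 2j)) ≥ 0`, and if it is zero, then
`z · w = 0` for all cycles `w` of the complementary codimension whose class is generated in degree
`N`.

So infinitely many cases of the conjecture, in unbounded dimensions, follow from the finitely many
cases of the products of at most `N` members.

The proof: the algebraic classes on the small products are regarded as tensors on the sum of the
cohomologies of the members (over the complex numbers, after the choice of an embedding of a
countable subfield), and the vectors of minimal length (Kempf-Ness) in the closure of the orbit of
these tensors under the group of the automorphisms of the bilinear form are studied; positivity for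
the given tensors implies that a Cartan involution fixes them up to the radical, and then the form is
positive on all tensors obtained from them.
-/

open CategoryTheory AlgebraicGeometry

set_option autoImplicit false

universe u v

namespace Pool.Agent.Results.MP_361a6f_ag.FiniteDeterminacy

open Pool.Agent.H914 Pool.Agent.H914.VarClass Pool.Agent.H281R3.HT Pool.Agent.W552
  Pool.Agent.H24FG

/-- **The standard conjecture of Hodge type is determined on the products of few factors.** -/
theorem result {k : Type u} [Field k] {𝒱 : VarClass k} {ops : CycleOps 𝒱}
    (W : WeilCohomology.{u, v} ops) {Λ : Type} [Finite Λ] (P : Λ → Polarized 𝒱)
    (hD : ∀ a, (P a).X.IsCyc 1 (P a).D) (hHL : ∀ a, HardLefschetz W (P a).X (P a).D)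
    (hB : ∀ a, LefschetzB W (P a).X (P a).D) {N : ℕ} (hN : 3 ≤ N)
    (hH : ∀ n < N, ∀ c : Fin (n + 1) → Λ, HodgeSemi W (nest ops n (fun i => P (c i))).X
      (nest ops n (fun i => P (c i))).D) (n : ℕ) (c : Fin (n + 1) → Λ) :
    HodgeNumOn W (nest ops n (fun i => P (c i))).X (nest ops n (fun i => P (c i))).D
      (Gen W P N n c) :=
  hodgeNumOn_gen hD hHL hB hN hH n c

end Pool.Agent.Results.MP_361a6f_ag.FiniteDeterminacy
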