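import Pool.Agent.K4H28.PF.Main

/-!
# The standard conjectures for products of varieties with a Fujiki relation

Partial answer to Q1 of MP_361a6f_ag.
-/

set_option autoImplicit false

open CategoryTheory AlgebraicGeometry

universe u v

open Pool.Agent.H914 Pool.Agent.K4H28.PF

/-- Let `W` be a Weil cohomology theory on a class of smooth projective varieties over a field
(of any characteristic) and let `Q t s` be a family of polarized varieties, the members, of
arbitrary even dimensions `2 d > 0`, with endomorphisms `f`. Assume for all members: the Fujiki
relation `tr (z ^ (2 d)) = c β(z, z) ^ d` on `H ^ 2`, the Hodge index theorem (the known case of
codimension `1`), hard Lefschetz and the Lefschetz standard conjecture for the polarization,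
Poincaré duality for the subalgebra generated by `H ^ 2`, and that `H ^ 2` is spanned by the
classes of divisors, on which `f` is the multiplication by `q`, and by eigenvectors `e i`, `e' i`
of `f` with the eigenvalues `α i`, `q ^ 2 / α i` of complex absolute value `q`.

The members are sorted into types. Two members of the same type are linked: they have the same
`α i`, and the class `∑ i, (e' i × ε i + e i × ε' i)` on their product is algebraic. The numbers
`α i / q` of all types together are multiplicatively independent.

Then for every product of members, with any number of factors and with repetitions, polarized by
the sum of the polarizations:

* the Tate conjecture holds for the classes, in all degrees, which lie in the algebra generated by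
  the pull-backs of the classes of degree `2` on the factors;
* if the product of the endomorphisms acts on the cycles as a Frobenius endomorphism over a field
  with `q` elements, then for the cycles whose class lies in this algebra the standard conjecture
  of Hodge type holds in all codimensions, and homological equivalence is numerical equivalence.

If the cohomology of all members is generated by `H ^ 2`, then this holds for all classes and all
cycles on the products. -/
theorem Pool.Agent.Results.MP_361a6f_ag.FujikiProducts.result
    {k : Type u} [Field k] {𝒱 : VarClass k} {ops : CycleOps 𝒱} {W : WeilCohomology.{u, v} ops}
    {T : Type} [Fintype T] {M : T → Type} {m : T → ℕ} {Q : ∀ t, M t → Marked W (m t)} {q : ℕ}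
    {α : ∀ t, Fin (m t) → W.K} (h : Family Q q α) {R : Datum W} (hR : IsProd Q R) :
    StandardFor R q (InAlg W.K R.S) ∧
      ((∀ t s x, InAlg W.K (Q t s).datum.S x) → StandardFor R q fun _ => True) :=
  main h hR
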