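import Pool.Agent.K4H28.FV.Main

/-!
# The standard conjecture of Hodge type for varieties with a Fujiki relation

Partial answer to Q1 of MP_361a6f_ag.
-/

set_option autoImplicit false

open CategoryTheory AlgebraicGeometry

universe u v

open Pool.Agent.H914 VarClass Obj WeilCohomology Pool.Agent.K4H28.FV

/-- Let `W` be a Weil cohomology theory on a class of smooth projective varieties over a field
(of any characteristic), `X` a variety of dimension `2 n > 0` with a divisor `D` of positive
degree and the Hodge index theorem (the case of codimension `1`, which is known), and let
`S = spanDiv W X e e'` be the space spanned by the classes of all divisors and by `e i`, `e' i`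
for `i < m`. Assume that the top intersection form on `S` is the `n`-th power of a quadratic form,
up to a constant (the Fujiki relation).

If `m > 0`, let moreover `D` satisfy hard Lefschetz and the Lefschetz standard conjecture, let
`f : X ⟶ X` act on the cycles as a Frobenius endomorphism over a field with `q` elements, with
eigenvalues of absolute value `q` on `H ^ 2`, let `e i`, `e' i` be eigenvectors of `f` on
`H ^ 2(X)` with the eigenvalues `α i`, `q ^ 2 / α i`, let `S` be the whole of `H ^ 2(X)`, let
`n ≥ 2` and let there be no relation `∏ i, (α i / q) ^ (M a i) = 1` with `M ≥ 1` and integers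
`a i` with `0 < ∑ i, |a i| ≤ n`.

Then the standard conjecture of Hodge type holds, in all codimensions, for all cycles on `X` whose
class is a polynomial in the classes of `S`: for all polynomials in divisor classes if `m = 0`,
and for all cycles whose class is a polynomial in classes of degree `2` if `m > 0`. -/
theorem Pool.Agent.Results.MP_361a6f_ag.FujikiVarieties.result
    {k : Type u} [Field k] {𝒱 : VarClass k} {ops : CycleOps 𝒱} {W : WeilCohomology.{u, v} ops}
    {X : 𝒱.Obj} {D : X.Cycles} {n m : ℕ} {e e' : Fin m → W.H X}
    (h : FujikiVariety W X D n (spanDiv W X e e'))
    (hf : 0 < m → ∃ (f : X ⟶ X) (q : ℕ) (α : Fin m → W.K), FrobeniusVariety W X D f q n e e' α) :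
    HodgeGen W X D (spanDiv W X e e') :=
  main h hf
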