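import Pool.Agent.H66SG.Fin

/-!
# The standard conjecture of Hodge type: half or all

Let `W` be a Weil cohomology theory, `X` a variety and `D` a divisor on `X` satisfying hard
Lefschetz, with `D ^ dim X` of positive degree. If a single primitive cycle on a single power of
`X` has a negative square, then on the powers of `X` the positive and the negative squares are half
and half, up to an exponentially small proportion. Hence the sign predicted by the conjecture is
right on all powers of `X` as soon as it is right for more than half of the squares on infinitely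
many of them.
-/

set_option autoImplicit false

open CategoryTheory AlgebraicGeometry Finset

universe u v

namespace Pool.Agent.Results.MP_361a6f_ag.HalfOrAll

open Pool.Agent.H914 Pool.Agent.H914.VarClass Pool.Agent.H914.VarClass.Obj
  Pool.Agent.H914.WeilCohomology Pool.Agent.X310 Pool.Agent.X310.Mom Pool.Agent.H66SG

/-- **Half or all.** Let `D` be a divisor on `X` satisfying hard Lefschetz, with `D ^ dim X` of
positive degree.

* If on the power `X ^ (s + 1)` some primitive cycle has a negative square, the squares on the
  powers of `X` are balanced, at the rate given by `s` and `dim H(X)`.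
* No primitive cycle on a power of `X` has a negative square if and only if for some `ε > 0`, on
  infinitely many powers at least `(1 / 2 + ε)` of the squares are positive.
* The standard conjecture of Hodge type holds for all powers of `X` if and only if moreover the
  pairings are nondegenerate.
* For a class of varieties with ample divisors which is closed under powers, `0 < ε ≤ 1 / 2` and
  `N` arbitrary, the conjecture holds for the whole class if and only if the pairings are
  nondegenerate and, on the varieties of dimension at least `N`, at least `(1 / 2 + ε)` of the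
  squares are positive. -/
theorem result {k : Type u} [Field k] {𝒱 : VarClass k} {ops : CycleOps 𝒱}
    (W : WeilCohomology.{u, v} ops) :
    (∀ (X : 𝒱.Obj) (D : X.Cycles), X.IsCyc 1 D → HardLefschetz W X D →
      0 < X.V.degCycle (divPow ops D X.dim X.V.fundCycle) →
      (∀ s, ¬ NoNegative W (pw X s) (pwDiv ops D s) → Balanced W X D s) ∧
      ((∀ M, NoNegative W (pw X M) (pwDiv ops D M)) ↔ Majority W X D) ∧
      ((∀ M, HodgeType W (pw X M) (pwDiv ops D M)) ↔
        (∀ M, Nondegenerate W (pw X M) (pwDiv ops D M)) ∧ Majority W X D)) ∧
    ∀ P : (∀ Y : 𝒱.Obj, Y.Cycles → Prop), IsAmpleClass W P →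
      ∀ ε : ℝ, 0 < ε → ε ≤ 1 / 2 → ∀ N : ℕ,
        ((∀ Y E, P Y E → HodgeType W Y E) ↔
          (∀ Y E, P Y E → Nondegenerate W Y E) ∧
            ∀ Y E, P Y E → N ≤ Y.dim →
              (1 / 2 + ε) * squares W Y E ≤ positives W Y E) := by
  refine ⟨fun X D hD hH hdeg => ⟨fun s hs => balanced hD hH hdeg hs, nonneg_iff hD hH hdeg, ?_⟩,
    fun P hP ε hε hε' N => ?_⟩
  · rw [← nonneg_iff hD hH hdeg]
    constructor
    · intro h
      exact ⟨fun M => ((hodge_iff (pwDiv_cyc hD M)).1 (h M)).2,
        fun M => ((hodge_iff (pwDiv_cyc hD M)).1 (h M)).1⟩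
    · rintro ⟨h1, h2⟩ M
      exact (hodge_iff (pwDiv_cyc hD M)).2 ⟨h2 M, h1 M⟩
  · rw [← class_iff hP hε hε' N]
    constructor
    · intro h
      exact ⟨fun Y E hY => ((hodge_iff (hP.div hY)).1 (h Y E hY)).2,
        fun Y E hY => ((hodge_iff (hP.div hY)).1 (h Y E hY)).1⟩
    · rintro ⟨h1, h2⟩ Y E hY
      exact (hodge_iff (hP.div hY)).2 ⟨h2 Y E hY, h1 Y E hY⟩

end Pool.Agent.Results.MP_361a6f_ag.HalfOrAll
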